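import Pool.Agent.H837.BL.Qbar

/-!
# Bloch's conjecture for all surfaces, and bounded statements over finite fields

A smooth projective surface `X` is given by `N` forms `F i` of degrees `δ i` in `2 + e + 1` variables,
`e` of which define it locally with independent differentials (`SmoothBy e b`, where `b` bounds the
degrees of the equations of the open sets); `IrrBy c F` says that `X` is irreducible as far as
polynomials of degree at most `c` are concerned, `FormBy e c δ F` that the canonical bundle has a
nonzero section with a denominator bounded by `c`, that is, a holomorphic 2-form. `MovesBy c F` says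
that effective zero-cycles of degree `c + 1` are rationally equivalent, with complexity at most `c`, to
effective zero-cycles with a point on a coordinate hyperplane. `Bloch K` is Bloch's conjecture over
the field `K`: if `X` is smooth and irreducible and has no 2-forms then `MovesBy c F` for some `c`.

It is shown that Bloch's conjecture over the complex numbers is equivalent to a uniform statement
over all algebraically closed fields outside finitely many characteristics, to the same statement
over the field of algebraic numbers, and to the same statement over the algebraic closures of the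
prime fields `F_l` for infinitely many `l`; the bound `c` depends only on `e, N, b, δ`. Over the complex numbers `MovesBy c F` holds for some
`c` if and only if the group of zero-cycles modulo rational equivalence is finite-dimensional.
-/

set_option autoImplicit false

namespace Pool.Agent.Results.MP_7ebcb6_ag.AllSurfacesOverFiniteFields

open MvPolynomial Pool.Agent.H837.AB Pool.Agent.H837.BL Pool.Agent.Y148.OD

/-- **Bloch's conjecture for all surfaces, and bounded statements over finite fields.** -/
theorem result :
    [∀ (K : Type) [Field K] [IsAlgClosed K] [CharZero K], Bloch K,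
     Bloch ℂ,
     ∀ (e N b : ℕ) (δ : Fin N → ℕ), ∃ c M : ℕ, M ≠ 0 ∧
       ∀ (K : Type) [Field K] [IsAlgClosed K], (M : K) ≠ 0 →
       ∀ F : Fin N → MvPolynomial (Fin (2 + e + 1)) K, (∀ i, (F i).IsHomogeneous (δ i)) →
         SmoothBy e b F → IrrBy c F → ¬ FormBy e c δ F → MovesBy c F,
     ∀ (e N b : ℕ) (δ : Fin N → ℕ), ∃ c : ℕ,
       ∀ F : Fin N → MvPolynomial (Fin (2 + e + 1)) (AlgebraicClosure ℚ),
         (∀ i, (F i).IsHomogeneous (δ i)) → SmoothBy e b F → IrrBy c F → ¬ FormBy e c δ F →
           MovesBy c F,
     ∀ (e N b : ℕ) (δ : Fin N → ℕ), ∃ c ℓ₀ : ℕ, ∀ (ℓ : ℕ) [Fact ℓ.Prime], ℓ₀ ≤ ℓ →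
       ∀ F : Fin N → MvPolynomial (Fin (2 + e + 1)) (AlgebraicClosure (ZMod ℓ)),
         (∀ i, (F i).IsHomogeneous (δ i)) → SmoothBy e b F → IrrBy c F → ¬ FormBy e c δ F →
           MovesBy c F,
     ∀ (e N b : ℕ) (δ : Fin N → ℕ), ∃ c : ℕ, ∀ ℓ₀ : ℕ, ∃ (ℓ : ℕ) (_ : Fact ℓ.Prime), ℓ₀ ≤ ℓ ∧
       ∀ F : Fin N → MvPolynomial (Fin (2 + e + 1)) (AlgebraicClosure (ZMod ℓ)),
         (∀ i, (F i).IsHomogeneous (δ i)) → SmoothBy e b F → IrrBy c F → ¬ FormBy e c δ F →
           MovesBy c F].TFAE ∧
    ∀ (r N : ℕ) (δ : Fin N → ℕ) (F : Fin N → MvPolynomial (Fin (r + 1)) ℂ),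
      (∀ i, (F i).IsHomogeneous (δ i)) → IsVariety {x : Pt r | x.rep ∈ Var F} 2 →
        ((∃ c, MovesBy c F) ↔ ∃ c : ℕ, ∀ n, dn {x : Pt r | x.rep ∈ Var F} 2 n ≤ c) :=
  ⟨bloch_tfae_qbar, fun _ _ _ _ hF hX => movesBy_iff_finite hF hX⟩

end Pool.Agent.Results.MP_7ebcb6_ag.AllSurfacesOverFiniteFields
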