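import Pool.Agent.H834.Img

/-!
# Bloch's conjecture for the surfaces with `p_g = 0` which are images of smooth surfaces in space
under rational maps of low degree

Let `V` be a smooth surface of degree `d` in `ℙ³` with the equation `F` and the function field `K`, and
let `V ⇢ X` be any dominant rational map of finite degree `r` to a surface `X`, with the function field
`L ⊆ K`. Nothing is assumed about the map; it need not be a quotient by a group. `Ω` is any algebraically
closed field of transcendence degree `2` over `ℂ`, for example an algebraic closure of `L`, and the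
embeddings `σ : L → Ω` over `ℂ` are the generic points of `X` with values in `Ω`.

`Rat L Ω` is rational equivalence of zero-cycles on `X_Ω`, modulo the cycles which are supported on
`D_Ω` for a curve `D` on `X`. If `r [σ] ∈ Rat L Ω` for the inclusion `σ` of `L` in its algebraic closure,
then a positive multiple of the diagonal of `X × X` is rationally equivalent to the sum of cycles
supported on `X × D` and on `D' × X`, for some curves `D` and `D'`, and so `B(X)` is finite-dimensional,
`d(X) = 0` (Bloch and Srinivas, Roitman; this is standard and not formalised here).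

**Theorem.** Let `d ≥ 7 N + 8` and `r < (N + 1) (d - 2 - N)`. If `p_g(X) = 0` then `r [σ] ∈ Rat L Ω` for
all generic points `σ` of `X` with values in `Ω`. Moreover the fibre of `V` over `σ` is a combination of
intersections of `V` with curves in `ℙ³` over `Ω` of total degree at most `N`.

So Q1 holds for all surfaces `X` which are dominated by a smooth surface of degree `d ≥ 7 N + 8` in `ℙ³`
by a rational map of degree less than `(N + 1) (d - 2 - N)`; with `N = ⌊(d - 8) / 7⌋` this is
`(6 / 49 - o(1)) d ^ 2`. For example, `d = 15`, `r ≤ 23`; `d = 50`, `r ≤ 293`.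

Proof. As `p_g(X) = 0`, the cycle `[σ]` has null trace. The traces to `X` of global 2-forms on `V` are
global 2-forms on `X`, and so the fibre of `V` over `σ` has null trace, too; it has `r` points of
multiplicity one. By the theorem `MP_762f97_ag.QuadraticDegree` (by helper162 and others) on cycles
with null trace on `V` it is a combination of curve sections, which is in `Rat K Ω`, and its image on
`X_Ω` is `r [σ]`.
-/

set_option autoImplicit false
set_option linter.overlappingInstances false

open FF Pool.Agent.W603.LV Pool.Agent.N162.BC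

namespace Pool.Agent.Results.MP_7ebcb6_ag.ImagesOfSpaceSurfaces

/-- An irreducible curve in `ℙ³` over `Ω` which is not contained in the plane `x₀ = 0` is given by its
function field `E` and by the restrictions `X = (1, X₁, X₂, X₃)` of the coordinates, which generate
`E`. This is the multiplicity of the intersection of the curve with the surface `F = 0` at the
point `p` with `p 0 = 1`: the sum of the orders of `F(X)` at the places `v` of `E` over `p`, which are the
points of the normalisation of the curve over `p`. (`Ge v 1 f` means `f = 0` or `ord_v f ≥ 1`.) -/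
noncomputable def interMult {Ω E : Type} [Field Ω] [Algebra ℂ Ω] [Field E] [Algebra Ω E]
    (F : MvPolynomial (Fin 4) ℂ) (X : Fin 4 → E) (p : Fin 4 → Ω) : ℤ :=
  ∑ᶠ v ∈ {v : Place Ω E | ∀ i, Ge v 1 (X i - algebraMap Ω E (p i))},
    v.ord (MvPolynomial.aeval X (MvPolynomial.map (algebraMap ℂ Ω) F))

/-- The degree of the curve: the number of its points in the plane `x₀ = 0`, with multiplicities,
which is the sum over all places `v` of `- min_j ord_v X_j`. (The order of zero is zero by
convention, and `ord_v X₀ = 0`.) -/
noncomputable def degree (Ω : Type) {E : Type} [Field Ω] [Field E] [Algebra Ω E] (X : Fin 4 → E) :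
    ℤ :=
  ∑ᶠ v : Place Ω E, Finset.univ.sup' Finset.univ_nonempty fun j => -(v.ord (X j))

/-- `c` is an integral combination of intersections with curves of total degree at most `N`: there are
finitely many irreducible curves `C i` in `ℙ³` over `Ω`, with the function fields `E i` and the
coordinates `X i`, which are not contained in the surface `F = 0`, and integers `a i`, such that
`∑ deg C i ≤ N`, and the multiplicity `c(σ)` of each generic point `σ` of the surface is
`∑ a i · (multiplicity of the intersection of C i with the surface at the point σ)`. -/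
def IsCurveSection {K Ω : Type} [Field K] [Algebra ℂ K] [Field Ω] [Algebra ℂ Ω] (N : ℕ)
    (F : MvPolynomial (Fin 4) ℂ) (x : Fin 4 → K) (c : (K →ₐ[ℂ] Ω) →₀ ℤ) : Prop :=
  ∃ (r : ℕ) (E : Fin r → Type) (_ : ∀ i, Field (E i)) (_ : ∀ i, Algebra Ω (E i))
    (_ : ∀ i, IsFF Ω (E i)) (X : ∀ i, Fin 4 → E i) (a : Fin r → ℤ),
    (∀ i, X i 0 = 1 ∧ IntermediateField.adjoin Ω (Set.range (X i)) = ⊤ ∧
      MvPolynomial.aeval (X i) (MvPolynomial.map (algebraMap ℂ Ω) F) ≠ 0) ∧
    ∑ i, degree Ω (X i) ≤ N ∧
    ∀ σ : K →ₐ[ℂ] Ω, c σ = ∑ i, a i * interMult F (X i) fun j => σ (x j)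

/-- **Bloch's conjecture for images of smooth surfaces in space.** Let `K` be the function field of a
smooth surface `V : F = 0` of degree `d ≥ 7 N + 8` in `ℙ³`, with generic point `x`, `x 0 = 1`, and let `K` be
finite of degree `[K : L] < (N + 1) (d - 2 - N)` over `L`, the function field of a surface `X`. Suppose
that `p_g(X) = 0`: all global canonical forms of `X` are zero. Then `[K : L] [σ] ∈ Rat L Ω` for all
algebraically closed fields `Ω` of transcendence degree `2` and all embeddings `σ : L → Ω` over `ℂ`, and the
fibre of `V` over `σ` is an integral combination of intersections with curves of total degree at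
most `N`. -/
theorem result {d N : ℕ} (hd : 7 * N + 8 ≤ d)
    {F : MvPolynomial (Fin 4) ℂ} (homogeneous : F.IsHomogeneous d)
    (smooth : ∀ z : Fin 4 → ℂ, z ≠ 0 → ∃ l, MvPolynomial.eval z (MvPolynomial.pderiv l F) ≠ 0)
    {K L : Type} [Field K] [Algebra ℂ K] [Field L] [Algebra ℂ L] [Algebra L K]
    [IsScalarTower ℂ L K] [FiniteDimensional L K]
    (hK : Algebra.trdeg ℂ K = 2) {x : Fin 4 → K} (hx0 : x 0 = 1)
    (hx : MvPolynomial.aeval x F = 0) (hgen : IntermediateField.adjoin ℂ (Set.range x) = ⊤)
    (genusZero : ∀ ω : (Fin 2 → Derivation ℂ L L) → L, GlobalForm 2 ω → ω = 0)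
    (hr : Module.finrank L K < (N + 1) * (d - 2 - N))
    {Ω : Type} [Field Ω] [Algebra ℂ Ω] [IsAlgClosed Ω] (hΩ : Algebra.trdeg ℂ Ω = 2)
    (σ : L →ₐ[ℂ] Ω) :
    Module.finrank L K • Finsupp.single σ (1 : ℤ) ∈ Rat L Ω ∧
    ∃ c' : (K →ₐ[ℂ] Ω) →₀ ℤ,
      (∀ σ' : K →ₐ[ℂ] Ω, (σ'.comp (IsScalarTower.toAlgHom ℂ L K) = σ → c' σ' = 1) ∧
        (σ'.comp (IsScalarTower.toAlgHom ℂ L K) ≠ σ → c' σ' = 0)) ∧
      IsCurveSection N F x c' := by
  classical
  have hsupp : (Finsupp.single σ (1 : ℤ)).support = {σ} :=
    Finsupp.support_single_ne_zero σ one_ne_zero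
  have hnull : NullTrace 2 (Finsupp.single σ (1 : ℤ)) := by
    intro ω hω z E hz hE D
    rw [genusZero ω hω]
    refine Finset.sum_eq_zero fun τ _ => ?_
    unfold pullback
    simp
  obtain ⟨⟨c', hc', hsec⟩, hrat⟩ := Pool.Agent.H834.Img.image_main hd homogeneous smooth hK hΩ hx0 hx
    hgen hnull (by rw [hsupp, Finset.card_singleton, mul_one]; exact hr) (Or.inr (Or.inl (by
      rw [hsupp, Finset.image_singleton, Finset.card_singleton]
      omega)))
  refine ⟨hrat, c', fun σ' => ?_, hsec⟩
  have h1 : restr L Ω σ' = σ'.comp (IsScalarTower.toAlgHom ℂ L K) := rfl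
  rw [hc', h1]
  refine ⟨fun h => ?_, fun h => ?_⟩
  · rw [h, Finsupp.single_eq_same]
  · exact Finsupp.single_eq_of_ne h

end Pool.Agent.Results.MP_7ebcb6_ag.ImagesOfSpaceSurfaces
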