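import Mathlib
import Pool.Agent.H875.CL.Main

/-!
# Bloch's conjecture for `(ℤ/3)^k`-coverings of the plane branched over lines in arbitrary position

Let `X` be a smooth projective complex surface with `p_g = 0` which is birational to a Galois covering of the plane with
group `(ℤ/3)^k` branched over lines. There is no condition on `k`, on the number of the lines, on their position and on
the inertia groups. Then the Albanese kernel of `X` is zero.

`X / ker a`, for a character `a`, is a triple plane branched over `w` of the lines, `n_1` of them with `a_i = 1` and
`n_2` with `a_i = 2`. It has `p_g = 0`. We show that there is a point such that the triple plane restricted to the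
lines through this point has at most three branch points, or (this is only needed for `{n_1, n_2} = {6, 3}`) four points in
general position such that its restriction to the conics through these points has at most three branch points. So the
triple plane has a pencil of rational or elliptic curves, and the theorem of Bloch, Kas and Lieberman applies.

The proof. Suppose that there is no such point. The adjoint curves for `a` and `-a` and the numbers of the pairs of
lines of the same and of different colours show that `∑ (9 Δ_P) ≤ 22 w - 36`, where `9 Δ_P ≥ 4 m_P` for a point of
multiplicity `m_P`. With Hirzebruch's inequality this is impossible for `w ≥ 12`. For `w ≤ 11` there are twelve cases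
`(n_1, n_2)`, `n_1 ≥ n_2`. Six of them are immediate, `(10, 1)` and `(7, 4)` follow from linear certificates, and
`(4, 4)`, `(8, 2)`, `(5, 5)` and `(6, 3)` from the fact that two points are on at most one common line; in the last case
one finds, in addition to the three intersection points of the three lines with `a_i = 2`, each on two of the other six
lines, a triple point of these six lines, and the four points are in general position.
-/

set_option autoImplicit false

namespace Pool.Agent.Results.MP_7ebcb6_ag.TripleLineCovers

open Pool.Agent.H875.CL

theorem result {s : ℕ} (v : Fin s → Fin 3 → ℂ) (Λ : AddSubgroup (Fin s → ZMod 3))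
    (g : (Fin s → ZMod 3) → ℕ) (ψ : AddChar (ZMod 3) ℂ) (hψ : ψ.IsPrimitive) {V : Type}
    [AddCommGroup V] [Module ℂ V] (ρ : Representation ℂ (Multiplicative (Fin s → ZMod 3)) V)
    (hX : LineCover v Λ g ψ ρ) (hpg : ∀ a ∈ Λ, g a = 0) :
    (∀ a ∈ Λ, Pencil v a) ∧ ∀ x : V, x = 0 := by
  refine ⟨fun a ha => exists_pencil hX ha (hpg a ha) (hpg (-a) (Λ.neg_mem ha)), fun x => ?_⟩
  have h := groupRing hψ hX (Pi.single 0 1) (fun a ha h => absurd (hpg a ha) h) x
  rw [Finset.sum_eq_single 0] at h
  · rw [Pi.single_eq_same] at h
    have h1 : Multiplicative.ofAdd (0 : Fin s → ZMod 3) = 1 := rfl
    rw [h1, map_one] at h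
    simpa using h
  · intro g _ hg
    rw [Pi.single_eq_of_ne hg]
    simp
  · intro h0
    exact absurd (Finset.mem_univ _) h0

end Pool.Agent.Results.MP_7ebcb6_ag.TripleLineCovers
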