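import Pool.Agent.H837.SP.Surf
import Pool.Agent.H837.SP.Lift

/-!
# Bloch's conjecture in families of surfaces is a uniform bound over finite fields

No hypothesis is assumed. Let `R` be a ring which is finitely generated over `ℤ`, and let a finite set `S` of
homogeneous forms over `R` and a hyperplane `l = 0` over `R` be given such that for every homomorphism `t` from
`R` to `ℂ` the projective variety `X_t` given by `S` and `t` is an irreducible surface which is not contained in
the hyperplane (`SurfaceFamily`). For instance, the smooth complex surfaces with `p_g = 0` which are given by a
bounded number of equations of bounded degrees in a fixed projective space are the complex members of finitely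
many such families, the parts of a constructible subset of the space of all equations.

An effective zero-cycle *moves with complexity at most `c`* if it is rationally equivalent, with complexity at
most `c`, to one with a point on the hyperplane. Here two effective zero-cycles `a` and `b` of the same degree are
rationally equivalent with complexity at most `c` if for an effective zero-cycle `w` of degree `c` the
zero-cycles `a + w` and `b + w` are the values at `0` and `∞` of a morphism of degree `c` from the projective
line to the symmetric product, embedded by Chow forms (`RatEq`). `Moves S l t c c` says that all effective
zero-cycles of degree `c + 1` on the member given by `t` move with complexity at most `c`.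

**Theorem A.** The following are equivalent.

1. For all `t : R → ℂ` the group `B(X_t)` of zero-cycles on `X_t` is finite-dimensional (the numbers `d_n`
   of Roitman and Mumford are bounded).
2. For one `c` and all `t : R → ℂ` all effective zero-cycles of degree `c + 1` on `X_t` move with complexity at
   most `c`.
3. For one `c` and some `N ≥ 1` the same is true for all homomorphisms from `R` to algebraically closed fields
   whose characteristic does not divide `N`.
4. For one `c` and all sufficiently large primes `ℓ` the same is true for all homomorphisms from `R` to an
   algebraic closure of the field with `ℓ` elements.
5. For one `c` this is true for infinitely many primes `ℓ`.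

Moreover, for every single `t : R → ℂ` the group `B(X_t)` is finite-dimensional if and only if the number
`moving` (see below) is finite at the kernel of `t`.

For smooth surfaces with `p_g = 0` the conjecture of Bloch says that (1) is true. Over an algebraic closure of a
finite field all effective zero-cycles of degree at least some `n`, which depends only on the family, move with
*some* complexity, whatever `p_g` is, by the theorems of Roitman and Milne. So the conjecture, for all complex
surfaces with `p_g = 0` and equations of bounded degree, is equivalent to the statement that the complexities
are bounded uniformly for all surfaces over finite fields in the corresponding families, for infinitely many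
characteristics. In particular, if the conjecture is true, then there are bounds for surfaces with
`p_g = 0`, over `ℂ` and over finite fields of large characteristic, which depend only on the degrees of the
equations.

**Theorem B.** Let `R` be any commutative ring and `S` any finite set of forms over `R`, of any
dimension. For a point `p` of the spectrum of `R` let `moving p` be the least `c` such that all effective
zero-cycles of degree `c + 1` on the geometric fibre over `p` move with complexity at most `c`.

1. This number can be computed over any algebraically closed field and homomorphism with kernel `p`.
2. If `R` is Noetherian, then the sets of the points with `moving p ≤ c` are constructible.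
3. If `R` is a Jacobson ring, for example finitely generated over `ℤ` or over a field, then `moving p ≤ c` if and
   only if the closed points `q` of the closure of `p` with `moving q ≤ c` are dense in it. So for a complex
   surface `X_t` the number is the least `c` such that it is at most `c` on a dense set of reductions to finite
   fields, and then it is at most `c` on a dense open set of them. (This contains the hand-in
   `BoundedOverFiniteFields` for single surfaces, which it replaces.)
4. If the points of special fibres lift to sections over valuation rings of algebraically closed fields, as for
   flat families, then `moving p ≤ 2 c (c + 1)` at all points of the closure of the set of the points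
   with `moving p ≤ c`. So if the conjecture is true in a family, then there is an explicit bound at all members
   of its closure: at the complex singular degenerations, at the surfaces of bad reduction, and at those in
   small characteristics. We prove that the points lift for all families of hypersurfaces (the coefficients of
   the equation have no common zero on the spectrum).

## The proof

The property `Moves S l φ n c` of the homomorphism `φ` to an algebraically closed field is compatible with
ultraproducts: the values of the families of zero-cycles at all points of the line have to be Chow forms, so
that both directions are proved together, and each zero-cycle which cannot be moved gives one over the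
ultraproduct. By the theorem of Steinitz, for ultrapowers with respect to a regular ultrafilter, it depends
only on the kernel of `φ`. By ultraproducts of the residue fields, for a prime `p` at which the property is true
(false) it is true (false) at all `q ⊇ p` which do not contain some element outside `p`. This gives
constructibility and the density of closed points, and Noetherian induction gives the uniformity in Theorem A:
if for each point of characteristic zero the property is true for some `c`, then one `c` is sufficient for all
points outside finitely many characteristics. Over the complex numbers the relation with finite-dimensionality
is due to Roitman and the library. For part 4 of Theorem B a rational equivalence over a valuation ring of an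
algebraically closed field, of any rank, is specialised with an explicit bound, by means of the Newton polygon
of the coefficients of the family (this is also used in my hand-in
`MP_32dfd1_ag.SpecialisationWithBounds`, which is about pairs of zero-cycles given by sections).
-/

set_option autoImplicit false

namespace Pool.Agent.Results.MP_7ebcb6_ag.UniformInFamilies

open MvPolynomial Pool.Agent.Y148.OD Pool.Agent.H837.UF Pool.Agent.H837.SP
open Topology (IsConstructible)

/-- **Finite-dimensionality of zero-cycles in families of surfaces is a uniform bound over finite fields**
(first part), **and the number `moving` on the spectrum of a ring** (second part). -/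
theorem result :
    (∀ (R : Type) [CommRing R] [Algebra.FiniteType ℤ R] (r : ℕ)
      (S : Finset (MvPolynomial (Fin (r + 1)) R)) (l : Fin (r + 1) → R), SurfaceFamily S l →
      [∀ t : R →+* ℂ, ∃ c : ℕ, ∀ n, dn (Member S t) 2 n ≤ c,
       ∃ c : ℕ, ∀ t : R →+* ℂ, Moves S l t c c,
       ∃ c N : ℕ, N ≠ 0 ∧ ∀ (K : Type) [Field K] [IsAlgClosed K] (t : R →+* K), (N : K) ≠ 0 →
         Moves S l t c c,
       ∃ c ℓ₀ : ℕ, ∀ (ℓ : ℕ) [Fact ℓ.Prime], ℓ₀ ≤ ℓ →
         ∀ t : R →+* AlgebraicClosure (ZMod ℓ), Moves S l t c c,
       ∃ c : ℕ, ∀ ℓ₀ : ℕ, ∃ (ℓ : ℕ) (_ : Fact ℓ.Prime), ℓ₀ ≤ ℓ ∧
         ∀ t : R →+* AlgebraicClosure (ZMod ℓ), Moves S l t c c].TFAE ∧
      ∀ t : R →+* ℂ, ((∃ c : ℕ, ∀ n, dn (Member S t) 2 n ≤ c) ↔ moving S l (pt t) ≠ ⊤)) ∧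
    (∀ (R : Type) [CommRing R] (r : ℕ) (S : Finset (MvPolynomial (Fin (r + 1)) R))
      (l : Fin (r + 1) → R),
      (∀ (K : Type) [Field K] [IsAlgClosed K] (t : R →+* K) (c : ℕ),
        Moves S l t c c ↔ moving S l (pt t) ≤ c) ∧
      (IsNoetherianRing R → ∀ c : ℕ, IsConstructible {p | moving S l p ≤ c}) ∧
      (IsJacobsonRing R → ∀ (c : ℕ) (p : PrimeSpectrum R), moving S l p ≤ c ↔
        p ∈ closure {q : PrimeSpectrum R | q.asIdeal.IsMaximal ∧ p ≤ q ∧ moving S l q ≤ c}) ∧
      ((∀ P ∈ S, ∃ d : ℕ, P.IsHomogeneous d) → LiftsPoints S → ∀ (c : ℕ),
        ∀ p ∈ closure {p | moving S l p ≤ c}, moving S l p ≤ (2 * c * (c + 1) : ℕ)) ∧
      ∀ P : MvPolynomial (Fin (r + 1)) R, Ideal.span (P.coeffs : Set R) = ⊤ → LiftsPoints {P}) :=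
  ⟨inFamilies, fun R _ r S l => ⟨(onSpectrum R r S l).1, (onSpectrum R r S l).2.1,
    (onSpectrum R r S l).2.2.1, (onSpectrum R r S l).2.2.2, fun _ hP => lifts_hypersurface hP⟩⟩

end Pool.Agent.Results.MP_7ebcb6_ag.UniformInFamilies
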